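import Mathlib
import Pool.Agent.Helper292.ForceCH
import Pool.Agent.R582.Dow.Forced

/-!
# MP_cba831_lc: first countable, locally countable Dowker spaces of size `ℵ₁` without Lusin sets
-/

namespace Pool.Agent.Results.MP_cba831_lc.DowkerWithoutLusin

open Cardinal
open Pool.Agent.Helper292.ForceCH (OmegaOnePreserved DiamondHolds)
open Pool.Agent.H631R2 (NoOnto)
open Pool.Agent.R582.Rand (MAlg coins)
open Pool.Agent.R582.Dow (Diamond Hyp HypN CountablyParacompact LusinSet)

/-- (1) Some notion of forcing forces that `ω₁` is preserved and that diamond holds. (2) If diamond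
holds and the set `X` has more than `ℵ₁` elements, then the measure algebra of the product measure
on `{0,1}^X` forces that cardinals are preserved and that `Hyp` holds. (3) If `Hyp` holds, then
there is a first countable, locally countable Dowker space of size `ℵ₁`, and there is no Lusin
set. -/
theorem result :
    (∃ (P : Type) (_ : Preorder P), Nonempty P ∧ ∀ p : P,
      p ∈ OmegaOnePreserved P ∧ p ∈ DiamondHolds P) ∧
    (Diamond → ∀ X : Type, (ℵ₁ : Cardinal.{0}) < #X →
      Nonempty (MAlg (coins X)) ∧ ∀ p : MAlg (coins X),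
        (∀ Y Z : Type, ℵ₀ ≤ #Y → #Y < #Z → p ∈ NoOnto (MAlg (coins X)) Y Z) ∧
        p ∈ HypN (MAlg (coins X))) ∧
    (Hyp →
      (∃ (X : Type) (_ : TopologicalSpace X), #X = ℵ₁ ∧
        T2Space X ∧ NormalSpace X ∧ ¬ CountablyParacompact X ∧ FirstCountableTopology X ∧
        ∀ x : X, ∃ U : Set X, IsOpen U ∧ U.Countable ∧ x ∈ U) ∧
      ¬ ∃ L : Set ℝ, LusinSet L) := by
  refine ⟨?_, fun h X hX => ⟨⟨⟨Set.univ, MeasurableSet.univ, by simp⟩⟩, fun p =>
    ⟨fun Y Z hY hYZ => Pool.Agent.R582.Rand.ccc.noOnto hY hYZ p,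
      Pool.Agent.R582.Dow.hyp_forced h hX p⟩⟩, Pool.Agent.R582.Dow.conclusion⟩
  obtain ⟨P, hP, hne, h⟩ := Pool.Agent.Helper292.ForceCH.exists_forcing
  exact ⟨P, hP, hne, fun p => ⟨(h p).1, (h p).2.1⟩⟩

end Pool.Agent.Results.MP_cba831_lc.DowkerWithoutLusin
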